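import Pool.Agent.Helper38.RS.Goals3

/-!
# Project RS (MP_fc6b1e_nt): primes in Galois extensions (toolkit for packet BEX)
-/

namespace Pool.Agent.Helper40.RS

open NumberField Polynomial Module IsDedekindDomain Pool.Agent.Helper38.RS
open scoped Pointwise

section gal

variable {K M : Type} [Field K] [NumberField K] [Field M] [NumberField M] [Algebra K M]
  [IsGalois K M]

theorem coe_smul' (g : M ≃ₐ[K] M) (x : 𝓞 M) : ((g • x : 𝓞 M) : M) = g (x : M) := rfl

theorem mem_pow_smul (g : M ≃ₐ[K] M) (v w : HeightOneSpectrum (𝓞 M))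
    (h : g • v.asIdeal = w.asIdeal) (x : 𝓞 M) (n : ℕ) :
    g • x ∈ w.asIdeal ^ n ↔ x ∈ v.asIdeal ^ n := by
  have h1 : w.asIdeal ^ n = g • (v.asIdeal ^ n) := by
    rw [← h, Ideal.pointwise_smul_def, Ideal.pointwise_smul_def, Ideal.map_pow]
  rw [h1, Ideal.smul_mem_pointwise_smul_iff]

theorem intVal_smul (g : M ≃ₐ[K] M) (v w : HeightOneSpectrum (𝓞 M))
    (h : g • v.asIdeal = w.asIdeal) (x : 𝓞 M) :
    w.intValuation (g • x) = v.intValuation x := by
  by_cases hx : x = 0
  · subst hx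
    rw [smul_zero, map_zero, map_zero]
  have hgx : g • x ≠ 0 := by
    intro h0
    apply hx
    have : g⁻¹ • (g • x) = 0 := by rw [h0, smul_zero]
    rwa [inv_smul_smul] at this
  have hv := v.intValuation_eq_exp_neg_multiplicity hx
  have hw := w.intValuation_eq_exp_neg_multiplicity hgx
  apply le_antisymm
  · rw [hv, HeightOneSpectrum.intValuation_le_pow_iff_mem, mem_pow_smul g v w h,
      ← HeightOneSpectrum.intValuation_le_pow_iff_mem, hv]
  · rw [hw, HeightOneSpectrum.intValuation_le_pow_iff_mem, ← mem_pow_smul g v w h,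
      ← HeightOneSpectrum.intValuation_le_pow_iff_mem, hw]

theorem val_smul (g : M ≃ₐ[K] M) (v w : HeightOneSpectrum (𝓞 M))
    (h : g • v.asIdeal = w.asIdeal) (y : M) :
    w.valuation M (g y) = v.valuation M y := by
  obtain ⟨a, b, hb, rfl⟩ := IsFractionRing.div_surjective (A := 𝓞 M) y
  rw [map_div₀, map_div₀, map_div₀]
  have h1 : ∀ x : 𝓞 M, w.valuation M (g (algebraMap (𝓞 M) M x)) =
      v.valuation M (algebraMap (𝓞 M) M x) := by
    intro x
    have h2 : g (algebraMap (𝓞 M) M x) = algebraMap (𝓞 M) M (g • x) := rfl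
    rw [h2, HeightOneSpectrum.valuation_of_algebraMap, HeightOneSpectrum.valuation_of_algebraMap,
      intVal_smul g v w h]
  rw [h1, h1]

/-- The prime of `K` below `w`. -/
noncomputable def bel (K : Type) {M : Type} [Field K] [NumberField K] [Field M] [NumberField M]
    [Algebra K M] (w : HeightOneSpectrum (𝓞 M)) : HeightOneSpectrum (𝓞 K) := w.under (𝓞 K)

instance lies (w : HeightOneSpectrum (𝓞 M)) : w.asIdeal.LiesOver (bel K w).asIdeal :=
  ⟨rfl⟩

theorem bel_smul (g : M ≃ₐ[K] M) (v w : HeightOneSpectrum (𝓞 M))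
    (h : g • v.asIdeal = w.asIdeal) : bel K w = bel K v := by
  apply HeightOneSpectrum.ext
  show w.asIdeal.under (𝓞 K) = v.asIdeal.under (𝓞 K)
  rw [← h]
  exact Ideal.under_smul (𝓞 K) v.asIdeal g

/-- The prime `g(w)`. -/
noncomputable def gw (g : M ≃ₐ[K] M) (w : HeightOneSpectrum (𝓞 M)) :
    HeightOneSpectrum (𝓞 M) where
  asIdeal := g • w.asIdeal
  isPrime := inferInstance
  ne_bot := by
    intro h0
    apply w.ne_bot
    have : g⁻¹ • (g • w.asIdeal) = g⁻¹ • (⊥ : Ideal (𝓞 M)) := by rw [h0]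
    rw [inv_smul_smul] at this
    rw [this]
    rw [Ideal.pointwise_smul_def, Ideal.map_bot]

theorem conj_of_bel (w v : HeightOneSpectrum (𝓞 M)) (h : bel K w = bel K v) : ConjP K w v := by
  have h1 : w.asIdeal.LiesOver (bel K v).asIdeal := by rw [← h]; infer_instance
  obtain ⟨g, hg⟩ := Ideal.exists_smul_eq_of_isGaloisGroup (bel K v).asIdeal v.asIdeal w.asIdeal
    (M ≃ₐ[K] M)
  exact ⟨g, fun y => val_smul g v w hg y⟩

theorem gw_inj (w : HeightOneSpectrum (𝓞 M)) (hf : FreeP K w) :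
    Function.Injective fun g : M ≃ₐ[K] M => gw g w := by
  intro g g' h
  have h1 : g • w.asIdeal = g' • w.asIdeal := congrArg HeightOneSpectrum.asIdeal h
  have h2 : (g'⁻¹ * g) • w.asIdeal = w.asIdeal := by
    rw [mul_smul, h1, inv_smul_smul]
  have h3 := hf (g'⁻¹ * g) (fun y => val_smul _ w w h2 y)
  have : g = g' * (g'⁻¹ * g) := by rw [mul_inv_cancel_left]
  rw [this, h3, mul_one]

theorem efg (w : HeightOneSpectrum (𝓞 M)) :
    ((bel K w).asIdeal.primesOver (𝓞 M)).ncard * (w.asIdeal.ramificationIdx (𝓞 K) *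
      w.asIdeal.inertiaDeg (𝓞 K)) = finrank K M := by
  have h1 := Ideal.ncard_primesOver_mul_ramificationIdxIn_mul_inertiaDegIn (bel K w).asIdeal
    (𝓞 M) (M ≃ₐ[K] M)
  rw [Ideal.ramificationIdxIn_eq_ramificationIdx (bel K w).asIdeal w.asIdeal (M ≃ₐ[K] M),
    Ideal.inertiaDegIn_eq_inertiaDeg (bel K w).asIdeal w.asIdeal (M ≃ₐ[K] M),
    IsGalois.card_aut_eq_finrank] at h1
  exact h1

theorem absNorm_free (w : HeightOneSpectrum (𝓞 M)) (hf : FreeP K w) :
    Ideal.absNorm w.asIdeal = Ideal.absNorm (bel K w).asIdeal := by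
  have h1 := efg (K := K) w
  have h2 : finrank K M ≤ ((bel K w).asIdeal.primesOver (𝓞 M)).ncard := by
    rw [← IsGalois.card_aut_eq_finrank K M, ← Nat.card_coe_set_eq]
    have hfin : Finite ((bel K w).asIdeal.primesOver (𝓞 M)) :=
      (IsDedekindDomain.primesOver_finite (bel K w).asIdeal (𝓞 M))
    refine Nat.card_le_card_of_injective
      (fun g : M ≃ₐ[K] M => (⟨g • w.asIdeal, (gw g w).isPrime, ?_⟩ :
        (bel K w).asIdeal.primesOver (𝓞 M))) ?_
    · have : bel K (gw g w) = bel K w := bel_smul g w (gw g w) rfl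
      rw [← this]
      exact lies (K := K) (gw g w)
    · intro g g' h
      apply gw_inj w hf
      apply HeightOneSpectrum.ext
      exact congrArg Subtype.val h
  have h3 : 0 < finrank K M := finrank_pos
  have h4 : w.asIdeal.ramificationIdx (𝓞 K) * w.asIdeal.inertiaDeg (𝓞 K) = 1 := by
    have h5 : w.asIdeal.ramificationIdx (𝓞 K) * w.asIdeal.inertiaDeg (𝓞 K) ≠ 0 := by
      intro h0
      rw [h0, mul_zero] at h1
      omega
    by_contra hne
    have h6 : 2 ≤ w.asIdeal.ramificationIdx (𝓞 K) * w.asIdeal.inertiaDeg (𝓞 K) := by omega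
    have h7 := Nat.mul_le_mul h2 h6
    rw [h1] at h7
    omega
  have h8 : w.asIdeal.inertiaDeg (𝓞 K) = 1 := Nat.eq_one_of_mul_eq_one_left h4
  have h9 := Ideal.absNorm_pow_inertiaDeg (bel K w).asIdeal w.asIdeal
  rw [h8, pow_one] at h9
  exact h9.symm

theorem ram_odd (hodd : Odd (finrank K M)) (w : HeightOneSpectrum (𝓞 M)) :
    Odd ((bel K w).asIdeal.ramificationIdx' w.asIdeal) := by
  rw [Ideal.ramificationIdx'_eq_ramificationIdx _ _ (bel K w).ne_bot]
  have h1 := efg (K := K) w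
  rw [← h1, Nat.odd_mul, Nat.odd_mul] at hodd
  exact hodd.2.1

theorem free_gw (g : M ≃ₐ[K] M) (w : HeightOneSpectrum (𝓞 M)) (hf : FreeP K w) :
    FreeP K (gw g w) := by
  intro h hh
  have h1 : ∀ y : M, (gw g w).valuation M (g y) = w.valuation M y :=
    fun y => val_smul g w (gw g w) rfl y
  have h2 := hf (g⁻¹ * h * g) (fun y => by
    rw [← h1]
    have h3 : g ((g⁻¹ * h * g) y) = h (g y) := by
      show (g * (g⁻¹ * h * g)) y = (h * g) y
      congr 1
      group
    rw [h3, hh, h1])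
  have h4 : h = g * (g⁻¹ * h * g) * g⁻¹ := by group
  rw [h4, h2]
  group

end gal

end Pool.Agent.Helper40.RS
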