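import Pool.Agent.Helper40.RS.Gal

/-!
# Project RS (MP_fc6b1e_nt), packet BEX: choice of `b`
-/

namespace Pool.Agent.Helper40.RS

open NumberField Polynomial Module IsDedekindDomain Pool.Agent.Helper38.RS
open UniqueFactorizationMonoid

section div

variable {K : Type} [Field K] [NumberField K]

/-- The divisor modulo 2 of an ideal. -/
noncomputable def dv (I : Ideal (𝓞 K)) : Ideal (𝓞 K) →₀ ZMod 2 :=
  ((normalizedFactors I).map fun P => Finsupp.single P (1 : ZMod 2)).sum

theorem dv_mul {I J : Ideal (𝓞 K)} (hI : I ≠ ⊥) (hJ : J ≠ ⊥) : dv (I * J) = dv I + dv J := by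
  unfold dv
  rw [normalizedFactors_mul (by simpa using hI) (by simpa using hJ), Multiset.map_add,
    Multiset.sum_add]

theorem dv_one : dv (1 : Ideal (𝓞 K)) = 0 := by
  unfold dv
  rw [normalizedFactors_one, Multiset.map_zero, Multiset.sum_zero]

theorem dv_prime (v : HeightOneSpectrum (𝓞 K)) : dv v.asIdeal = Finsupp.single v.asIdeal 1 := by
  unfold dv
  rw [normalizedFactors_irreducible v.irreducible]
  simp

theorem dv_apply (I P : Ideal (𝓞 K)) : dv I P = ((normalizedFactors I).count P : ZMod 2) := by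
  unfold dv
  generalize normalizedFactors I = s
  induction s using Multiset.induction_on with
  | empty => simp
  | cons a s ih =>
    rw [Multiset.map_cons, Multiset.sum_cons, Finsupp.add_apply, ih, Multiset.count_cons,
      Finsupp.single_apply]
    by_cases h : a = P
    · rw [if_pos h, if_pos h.symm]
      push_cast
      ring
    · rw [if_neg h, if_neg (fun h' => h h'.symm)]
      push_cast
      ring

theorem val_count (v : HeightOneSpectrum (𝓞 K)) {b : 𝓞 K} (hb : b ≠ 0) :
    v.valuation K (algebraMap (𝓞 K) K b) =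
      WithZero.exp (-((normalizedFactors (Ideal.span {b})).count v.asIdeal : ℤ)) := by
  rw [HeightOneSpectrum.valuation_of_algebraMap, v.intValuation_eq_exp_neg_multiplicity hb]
  have hb' : Ideal.span {b} ≠ 0 := by simpa using hb
  have h1 := emultiplicity_eq_count_normalizedFactors v.irreducible hb'
  rw [normalize_eq] at h1
  have h2 : multiplicity v.asIdeal (Ideal.span {b}) =
      (normalizedFactors (Ideal.span {b})).count v.asIdeal := by
    exact multiplicity_eq_of_emultiplicity_eq_some h1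
  rw [h2]

/-- The sign. -/
noncomputable def sg (x : ZMod 2) : ℝ := if x = 0 then 1 else -1

theorem z2 (x : ZMod 2) : x = 0 ∨ x = 1 := by
  revert x
  decide

theorem sg_zero : sg 0 = 1 := by rw [sg, if_pos rfl]

theorem sg_one : sg 1 = -1 := by
  rw [sg, if_neg (by decide)]

theorem sg_add (x y : ZMod 2) : sg (x + y) = sg x * sg y := by
  rcases z2 x with rfl | rfl <;> rcases z2 y with rfl | rfl
  · rw [add_zero, sg_zero, mul_one]
  · rw [zero_add, sg_zero, one_mul]
  · rw [add_zero, sg_zero, mul_one]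
  · have : (1 : ZMod 2) + 1 = 0 := by decide
    rw [this, sg_zero, sg_one]
    norm_num

theorem sg_cases (x : ZMod 2) : sg x = 1 ∨ sg x = -1 := by
  rcases z2 x with rfl | rfl
  · exact Or.inl sg_zero
  · exact Or.inr sg_one

/-- The character attached to a linear form. -/
noncomputable def ps (n : 𝓞 K) (φ : (Ideal (𝓞 K) →₀ ZMod 2) →ₗ[ZMod 2] ZMod 2)
    (I : Ideal (𝓞 K)) : ℝ :=
  open Classical in if I ≠ ⊥ ∧ I ⊔ Ideal.span {n} = ⊤ then sg (φ (dv I)) else 0

theorem isPsi_ps (n : 𝓞 K) (hn : n ≠ 0) (φ : (Ideal (𝓞 K) →₀ ZMod 2) →ₗ[ZMod 2] ZMod 2)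
    (hβ : ∀ β : 𝓞 K, β ≠ 0 → n ∣ β - 1 → φ (dv (Ideal.span {β})) = 0)
    (q : HeightOneSpectrum (𝓞 K)) (hq : q.asIdeal ⊔ Ideal.span {n} = ⊤)
    (hφ : φ (Finsupp.single q.asIdeal 1) = 1) : IsPsi (Ideal.span {n}) (ps n φ) where
  ne := by simpa using hn
  zero := by
    unfold ps
    rw [if_neg (fun h => h.1 rfl)]
  mul := by
    intro I J
    unfold ps
    by_cases hI : I ≠ ⊥ ∧ I ⊔ Ideal.span {n} = ⊤
    · by_cases hJ : J ≠ ⊥ ∧ J ⊔ Ideal.span {n} = ⊤
      · have hIJ : I * J ≠ ⊥ ∧ I * J ⊔ Ideal.span {n} = ⊤ := by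
          refine ⟨?_, ?_⟩
          · have := mul_ne_zero (by simpa using hI.1 : I ≠ 0) (by simpa using hJ.1 : J ≠ 0)
            simpa using this
          · have h1 := Ideal.isCoprime_iff_sup_eq.2 hI.2
            have h2 := Ideal.isCoprime_iff_sup_eq.2 hJ.2
            exact Ideal.isCoprime_iff_sup_eq.1 (h1.mul_left h2)
        rw [if_pos hI, if_pos hJ, if_pos hIJ, dv_mul hI.1 hJ.1, map_add, sg_add]
      · rw [if_neg hJ, mul_zero, if_neg]
        intro h
        apply hJ
        refine ⟨?_, ?_⟩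
        · intro h0
          exact h.1 (by rw [h0, Ideal.mul_bot])
        · have h1 := Ideal.isCoprime_iff_sup_eq.2 h.2
          exact Ideal.isCoprime_iff_sup_eq.1 (IsCoprime.mul_left_iff.1 h1).2
    · rw [if_neg hI, zero_mul, if_neg]
      intro h
      apply hI
      refine ⟨?_, ?_⟩
      · intro h0
        exact h.1 (by rw [h0, Ideal.bot_mul])
      · have h1 := Ideal.isCoprime_iff_sup_eq.2 h.2
        exact Ideal.isCoprime_iff_sup_eq.1 (IsCoprime.mul_left_iff.1 h1).1
  cop := by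
    intro I hI hI'
    unfold ps
    rw [if_pos ⟨hI, hI'⟩]
    exact sg_cases _
  ncop := by
    intro I hI hI'
    unfold ps
    rw [if_neg (fun h => hI' h.2)]
  ray := by
    intro α hα hα'
    unfold ps
    rw [if_pos, hβ α hα (Ideal.mem_span_singleton.1 hα'), sg_zero]
    refine ⟨by simpa using hα, ?_⟩
    rw [Ideal.eq_top_iff_one]
    have h1 : (1 : 𝓞 K) = α + -(α - 1) := by ring
    rw [h1]
    exact Submodule.add_mem_sup (Ideal.mem_span_singleton_self α)
      ((Ideal.span {n}).neg_mem hα')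
  nontriv := by
    refine ⟨q.asIdeal, ?_⟩
    unfold ps
    rw [if_pos ⟨q.ne_bot, hq⟩, dv_prime, hφ, sg_one]

end div

section main

variable {K M : Type} [Field K] [NumberField K] [Field M] [NumberField M] [Algebra K M]
  [IsGalois K M]

theorem ordv_count (w : HeightOneSpectrum (𝓞 M)) {b : 𝓞 K} (hb : b ≠ 0) :
    ordv w (algebraMap K M (b : K)) =
      ((bel K w).asIdeal.ramificationIdx' w.asIdeal : ℤ) *
        ((normalizedFactors (Ideal.span {b})).count (bel K w).asIdeal : ℤ) := by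
  unfold ordv
  have h1 := HeightOneSpectrum.valuation_liesOver M (bel K w) w (b : K)
  have h2 := val_count (bel K w) hb
  rw [← h1]
  rw [h2, WithZero.log_pow, WithZero.log_exp]
  simp

theorem absNorm_one_le {F : Type} [Field F] [NumberField F] (v : HeightOneSpectrum (𝓞 F)) :
    (1 : ℝ) ≤ (Ideal.absNorm v.asIdeal : ℝ) := by
  have h1 : Ideal.absNorm v.asIdeal ≠ 0 := by
    rw [Ne, Ideal.absNorm_eq_zero_iff]
    exact v.ne_bot
  have h2 : 1 ≤ Ideal.absNorm v.asIdeal := Nat.one_le_iff_ne_zero.2 h1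
  exact_mod_cast h2

open Classical in
theorem tail (h1 : S_PSM) {D : Set (HeightOneSpectrum (𝓞 K))} {q : HeightOneSpectrum (𝓞 K)}
    {C : ℝ} (hD : ∀ s : ℝ, 1 < s → s ≤ 2 → 1 / 2 * Real.log (1 / (s - 1)) - C ≤ pz D s)
    (hfree : ∀ r ∈ D, r ≠ q → ∃ w : HeightOneSpectrum (𝓞 M), bel K w = r ∧ FreeP K w)
    (hm : 3 ≤ finrank K M) : False := by
  obtain ⟨CK, hK⟩ := h1 K
  obtain ⟨CM, hM⟩ := h1 M
  -- the value of `ℓ`
  obtain ⟨l, hl0, hlK, hlM, hlC, hl⟩ : ∃ l : ℝ, 0 ≤ l ∧ CK < l ∧ CM < l ∧ 0 < 1 / 2 * l - C - 1 ∧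
      l + CM < 3 * (1 / 2 * l - C - 1) := by
    refine ⟨2 * (3 * |C| + 4 + |CM|) + 2 * |CK|, ?_, ?_, ?_, ?_, ?_⟩ <;>
    nlinarith [abs_nonneg C, abs_nonneg CM, abs_nonneg CK, le_abs_self C, le_abs_self CM,
      le_abs_self CK]
  have hs1 : (1 : ℝ) < 1 + Real.exp (-l) := by linarith [Real.exp_pos (-l)]
  have hs2 : 1 + Real.exp (-l) ≤ 2 := by
    have : Real.exp (-l) ≤ 1 := by
      rw [Real.exp_le_one_iff]
      linarith
    linarith
  have hlog : Real.log (1 / (1 + Real.exp (-l) - 1)) = l := by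
    rw [add_sub_cancel_left, one_div, ← Real.exp_neg, neg_neg, Real.log_exp]
  set s : ℝ := 1 + Real.exp (-l) with hs
  have hD' := hD s hs1 hs2
  have hK' := hK s hs1 hs2
  have hM' := hM s hs1 hs2
  rw [hlog] at hD' hK' hM'
  set f : HeightOneSpectrum (𝓞 K) → ℝ := fun v => (Ideal.absNorm v.asIdeal : ℝ) ^ (-s) with hf
  set F : HeightOneSpectrum (𝓞 M) → ℝ := fun v => (Ideal.absNorm v.asIdeal : ℝ) ^ (-s) with hF
  have hf0 : ∀ v, 0 ≤ f v := fun v => Real.rpow_nonneg (Nat.cast_nonneg _) _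
  have hF0 : ∀ v, 0 ≤ F v := fun v => Real.rpow_nonneg (Nat.cast_nonneg _) _
  have eK : pz (F := K) Set.univ s = ∑' v, f v := tsum_univ f
  have eM : pz (F := M) Set.univ s = ∑' v, F v := tsum_univ F
  rw [eK] at hK'
  rw [eM] at hM'
  have sK : Summable f := by
    by_contra h
    rw [tsum_eq_zero_of_not_summable h, zero_sub, abs_neg] at hK'
    have := le_abs_self l
    linarith
  have sM : Summable F := by
    by_contra h
    rw [tsum_eq_zero_of_not_summable h, zero_sub, abs_neg] at hM'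
    have := le_abs_self l
    linarith
  -- the set without `q`
  let D' : Set (HeightOneSpectrum (𝓞 K)) := D \ {q}
  have hDD : pz D s ≤ pz D' s + 1 := by
    have e1 : pz D s = ∑' v, D.indicator f v := tsum_subtype D f
    have e2 : pz D' s = ∑' v, D'.indicator f v := tsum_subtype D' f
    have hq1 : f q ≤ 1 := by
      rw [hf]
      exact Real.rpow_le_one_of_one_le_of_nonpos (absNorm_one_le q) (by linarith)
    have e3 : ∑' v, (if v = q then f q else 0) = f q := tsum_ite_eq q (fun _ => f q)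
    have s3 : Summable fun v => (if v = q then f q else 0) :=
      (hasSum_ite_eq q (f q)).summable
    have h4 : ∑' v, D.indicator f v ≤ ∑' v, (D'.indicator f v + (if v = q then f q else 0)) := by
      refine (sK.indicator D).tsum_le_tsum ?_ ((sK.indicator D').add s3)
      intro v
      by_cases hv : v ∈ D
      · rw [Set.indicator_of_mem hv]
        by_cases hvq : v = q
        · subst hvq
          rw [if_pos rfl, Set.indicator_of_notMem (fun h => h.2 rfl), zero_add]
        · rw [if_neg hvq, Set.indicator_of_mem (show v ∈ D' from ⟨hv, hvq⟩), add_zero]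
      · rw [Set.indicator_of_notMem hv]
        refine add_nonneg (Set.indicator_nonneg (fun x _ => hf0 x) v) ?_
        split_ifs
        · exact hf0 q
        · exact le_refl 0
    rw [(sK.indicator D').tsum_add s3, e3] at h4
    rw [e1, e2]
    linarith
  -- the injection
  have hW : ∀ r : D', ∃ w : HeightOneSpectrum (𝓞 M), bel K w = r.1 ∧ FreeP K w :=
    fun r => hfree r.1 r.2.1 r.2.2
  choose W hW1 hW2 using hW
  let i : D' × (M ≃ₐ[K] M) → HeightOneSpectrum (𝓞 M) := fun p => gw p.2 (W p.1)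
  have hbel : ∀ p : D' × (M ≃ₐ[K] M), bel K (i p) = p.1.1 := by
    intro p
    rw [← hW1 p.1]
    exact bel_smul p.2 (W p.1) (i p) rfl
  have hi : Function.Injective i := by
    rintro ⟨r, g⟩ ⟨r', g'⟩ h
    have h1 : r = r' := by
      apply Subtype.ext
      have h2 := congrArg (bel K) h
      rw [hbel, hbel] at h2
      exact h2
    subst h1
    have h3 : g = g' := gw_inj (W r) (hW2 r) h
    rw [h3]
  have hFi : ∀ p, F (i p) = f p.1.1 := by
    intro p
    have h2 : Ideal.absNorm (i p).asIdeal = Ideal.absNorm (bel K (i p)).asIdeal :=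
      absNorm_free (i p) (free_gw p.2 (W p.1) (hW2 p.1))
    rw [hbel p] at h2
    rw [hF, hf]
    simp only
    rw [h2]
  have hle := tsum_comp_le_tsum_of_inj sM hF0 hi
  have sI : Summable (F ∘ i) := sM.comp_injective hi
  have hprod : ∑' p, (F ∘ i) p = (finrank K M : ℝ) * pz D' s := by
    have h5 : (F ∘ i) = fun p : D' × (M ≃ₐ[K] M) => f p.1.1 := funext hFi
    rw [h5] at sI ⊢
    rw [sI.tsum_prod' (fun r => (hasSum_fintype _).summable)]
    have h6 : ∀ r : D', ∑' _g : (M ≃ₐ[K] M), f r.1 = (finrank K M : ℝ) * f r.1 := by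
      intro r
      rw [tsum_fintype, Finset.sum_const, Finset.card_univ, nsmul_eq_mul,
        ← Nat.card_eq_fintype_card, IsGalois.card_aut_eq_finrank]
    have h7 : (fun r : D' => ∑' g : (M ≃ₐ[K] M), f (r, g).1.1) =
        fun r : D' => (finrank K M : ℝ) * f r.1 := by
      funext r
      exact h6 r
    rw [h7, tsum_mul_left]
    rfl
  rw [hprod] at hle
  have h8 : 0 ≤ pz D' s := tsum_nonneg fun v => hf0 v.1
  have h9 : (3 : ℝ) ≤ (finrank K M : ℝ) := by exact_mod_cast hm
  have h10 : 1 / 2 * l - C - 1 ≤ pz D' s := by linarith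
  have h11 : 3 * (1 / 2 * l - C - 1) ≤ (finrank K M : ℝ) * pz D' s := by
    calc 3 * (1 / 2 * l - C - 1) ≤ 3 * pz D' s := by linarith
      _ ≤ (finrank K M : ℝ) * pz D' s := mul_le_mul_of_nonneg_right h9 h8
  have h12 := (abs_le.1 hM').2
  linarith

/-- The harmless primes, without `q`. -/
def Hm (q : HeightOneSpectrum (𝓞 K)) (M : Type) [Field M] [NumberField M] [Algebra K M] :
    Set (Ideal (𝓞 K)) :=
  {P | ∃ r : HeightOneSpectrum (𝓞 K), P = r.asIdeal ∧ r ≠ q ∧
    ∀ w : HeightOneSpectrum (𝓞 M), bel K w = r → ¬ FreeP K w}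

/-- The generators of `N`. -/
def Gen (n : 𝓞 K) (H : Set (Ideal (𝓞 K))) : Set (Ideal (𝓞 K) →₀ ZMod 2) :=
  ((fun P => Finsupp.single P (1 : ZMod 2)) '' H) ∪
    {x | ∃ β : 𝓞 K, β ≠ 0 ∧ n ∣ β - 1 ∧ x = dv (Ideal.span {β})}

theorem span_gen (n : 𝓞 K) (H : Set (Ideal (𝓞 K))) (v : Ideal (𝓞 K) →₀ ZMod 2)
    (hv : v ∈ Submodule.span (ZMod 2) (Gen n H)) :
    ∃ b : 𝓞 K, b ≠ 0 ∧ n ∣ b - 1 ∧ ∀ P ∉ H, v P = dv (Ideal.span {b}) P := by
  have hone : dv (Ideal.span {(1 : 𝓞 K)}) = 0 := by
    rw [Ideal.span_singleton_one, ← Ideal.one_eq_top, dv_one]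
  induction hv using Submodule.span_induction with
  | mem x hx =>
    rcases hx with ⟨P₀, hP₀, rfl⟩ | ⟨β, h1, h2, rfl⟩
    · refine ⟨1, one_ne_zero, by simp, ?_⟩
      intro P hP
      have hne : P₀ ≠ P := by
        intro h
        rw [h] at hP₀
        exact hP hP₀
      show Finsupp.single P₀ (1 : ZMod 2) P = _
      rw [hone, Finsupp.single_apply, if_neg hne]
      rfl
    · exact ⟨β, h1, h2, fun P _ => rfl⟩
  | zero =>
    refine ⟨1, one_ne_zero, by simp, ?_⟩
    intro P _
    rw [hone]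
  | add x y _ _ hx hy =>
    obtain ⟨b, h1, h2, h3⟩ := hx
    obtain ⟨c, k1, k2, k3⟩ := hy
    refine ⟨b * c, mul_ne_zero h1 k1, ?_, ?_⟩
    · have : b * c - 1 = b * (c - 1) + (b - 1) := by ring
      rw [this]
      exact dvd_add (k2.mul_left b) h2
    · intro P hP
      rw [← Ideal.span_singleton_mul_span_singleton, dv_mul (by simpa using h1) (by simpa using k1),
        Finsupp.add_apply, Finsupp.add_apply, h3 P hP, k3 P hP]
  | smul a x _ hx =>
    rcases z2 a with rfl | rfl
    · refine ⟨1, one_ne_zero, by simp, ?_⟩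
      intro P _
      rw [hone, zero_smul]
    · rw [one_smul]
      exact hx

end main

theorem s_bex (h1 : S_PSM) (h2 : S_HLF) : S_BEX := by
  intro K M _ _ _ _ _ _ _ hodd hgt 𝔮 n hn hord
  have hm : 3 ≤ finrank K M := by
    obtain ⟨k, hk⟩ := hodd
    omega
  set q : HeightOneSpectrum (𝓞 K) := bel K 𝔮 with hq
  -- `n` is not in `q`
  have hcop : q.asIdeal ⊔ Ideal.span {n} = ⊤ := by
    have h3 := ordv_count 𝔮 hn
    rw [hord] at h3
    have h4 : (normalizedFactors (Ideal.span {n})).count q.asIdeal = 0 := by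
      have h5 : ((bel K 𝔮).asIdeal.ramificationIdx' 𝔮.asIdeal : ℤ) ≠ 0 := by
        intro h0
        have h6 := ram_odd hodd 𝔮
        rw [Int.natCast_eq_zero.1 h0] at h6
        exact (by decide : ¬ Odd 0) h6
      rcases mul_eq_zero.1 h3.symm with h | h
      · exact absurd h h5
      · exact_mod_cast h
    have h7 : n ∉ q.asIdeal := by
      intro h
      rw [Multiset.count_eq_zero] at h4
      apply h4
      have hn' : Ideal.span {n} ≠ 0 := by simpa using hn
      rw [UniqueFactorizationMonoid.mem_normalizedFactors_iff hn']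
      refine ⟨q.prime, ?_⟩
      exact Ideal.dvd_span_singleton.2 h
    have h8 : q.asIdeal < q.asIdeal ⊔ Ideal.span {n} := by
      refine lt_of_le_of_ne le_sup_left ?_
      intro h
      apply h7
      rw [h]
      exact Ideal.mem_sup_right (Ideal.mem_span_singleton_self n)
    exact q.isMaximal.1.2 _ h8
  have hmem : Finsupp.single q.asIdeal (1 : ZMod 2) ∈
      Submodule.span (ZMod 2) (Gen n (Hm q M)) := by
    by_contra hnot
    obtain ⟨φ, hφ1, hφ2⟩ := Submodule.exists_le_ker_of_notMem hnot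
    have hφ3 : φ (Finsupp.single q.asIdeal 1) = 1 := (z2 _).resolve_left hφ1
    have hgen : ∀ x ∈ Gen n (Hm q M), φ x = 0 := by
      intro x hx
      exact LinearMap.mem_ker.1 (hφ2 (Submodule.subset_span hx))
    have hβ : ∀ β : 𝓞 K, β ≠ 0 → n ∣ β - 1 → φ (dv (Ideal.span {β})) = 0 := by
      intro β k1 k2
      exact hgen _ (Or.inr ⟨β, k1, k2, rfl⟩)
    have hpsi := isPsi_ps n hn φ hβ q hcop hφ3
    obtain ⟨C, hC⟩ := h2 K (Ideal.span {n}) (ps n φ) hpsi
    refine tail (K := K) (M := M) h1 (q := q) hC ?_ hm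
    intro r hr hrq
    by_contra hno
    push Not at hno
    have h3 : r.asIdeal ∈ Hm q M := ⟨r, rfl, hrq, hno⟩
    have h4 := hgen _ (Or.inl ⟨r.asIdeal, h3, rfl⟩)
    have h5 : ps n φ r.asIdeal = -1 := hr
    unfold ps at h5
    split_ifs at h5 with h6
    · rw [dv_prime, h4, sg_zero] at h5
      norm_num at h5
    · norm_num at h5
  obtain ⟨b, hb0, hbn, hb⟩ := span_gen n (Hm q M) _ hmem
  have hqH : q.asIdeal ∉ Hm q M := by
    rintro ⟨r, h3, h4, -⟩
    exact h4 (HeightOneSpectrum.ext h3.symm)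
  refine ⟨b, hb0, hbn, ?_, ?_⟩
  · rw [ordv_count 𝔮 hb0]
    have h3 := hb _ hqH
    rw [Finsupp.single_apply, if_pos rfl, dv_apply] at h3
    have h4 : Odd ((normalizedFactors (Ideal.span {b})).count q.asIdeal) :=
      (ZMod.natCast_eq_one_iff_odd).1 h3.symm
    have h5 := (ram_odd hodd 𝔮).mul h4
    exact_mod_cast h5
  · intro w hw hf
    rw [ordv_count w hb0] at hw
    have h3 : Odd ((normalizedFactors (Ideal.span {b})).count (bel K w).asIdeal) := by
      have h4 := (Int.odd_mul.1 hw).2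
      exact_mod_cast h4
    have h5 : dv (Ideal.span {b}) (bel K w).asIdeal = 1 := by
      rw [dv_apply]
      exact (ZMod.natCast_eq_one_iff_odd).2 h3
    apply conj_of_bel
    by_contra hne
    have h6 : (bel K w).asIdeal ∉ Hm q M := by
      rintro ⟨r, h7, -, h8⟩
      exact h8 w (HeightOneSpectrum.ext h7) hf
    have h9 := hb _ h6
    rw [h5, Finsupp.single_apply, if_neg] at h9
    · exact (by decide : ¬ (0 : ZMod 2) = 1) h9
    · intro h10
      exact hne (HeightOneSpectrum.ext h10.symm)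

end Pool.Agent.Helper40.RS
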