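import Pool.Agent.Helper36.RS.Goals
import Pool.Agent.Helper40.RF.FDG

/-!
Packet SOB of project RF, existence part: the Sobolev inequality on the sphere.
-/

namespace Pool.Agent.Helper40.RS

open Set Filter Topology MeasureTheory Pool.Agent.Helper47.RF Pool.Agent.Helper36.RS
open scoped ContDiff ENNReal NNReal

theorem hvol : (volume : Measure HH).IsAddHaarMeasure := by
  have : (volume : Measure HH) = (stdOrthonormalBasis ℝ HH).toBasis.addHaar := rfl
  rw [this]
  infer_instance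

/-- an annulus -/
def KK : Set HH := Metric.closedBall 0 (3 / 4) \ Metric.ball 0 (1 / 4)

theorem KK_ne {y : HH} (hy : y ∈ KK) : y ≠ 0 := by
  rintro rfl
  exact hy.2 (by simp)

theorem KK_ball : KK ⊆ Metric.ball (0 : HH) 1 := by
  intro y hy
  have h := hy.1
  rw [mem_closedBall_zero_iff] at h
  rw [mem_ball_zero_iff]
  linarith

theorem isCompact_KK : IsCompact KK := (isCompact_closedBall 0 (3 / 4)).diff Metric.isOpen_ball

/-- a product with a cut off function is smooth -/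
theorem smooth_mul {c v : HH → ℝ} (hc : ContDiff ℝ ∞ c) (hs : tsupport c ⊆ KK)
    (hv : ContDiffOn ℝ ∞ v {0}ᶜ) : ContDiff ℝ ∞ (fun y => c y * v y) := by
  rw [contDiff_iff_contDiffAt]
  intro y
  by_cases hy : y ∈ tsupport c
  · have h0 : y ≠ 0 := KK_ne (hs hy)
    exact hc.contDiffAt.mul (hv.contDiffAt (isOpen_compl_singleton.mem_nhds h0))
  · have h1 : (fun y => c y * v y) =ᶠ[𝓝 y] fun _ => (0 : ℝ) := by
      rw [notMem_tsupport_iff_eventuallyEq] at hy
      filter_upwards [hy] with z hz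
      simp only [Pi.zero_apply] at hz
      rw [hz, zero_mul]
    exact contDiffAt_const.congr_of_eventuallyEq h1

/-- conjugation as a continuous linear map -/
noncomputable def stL : HH →L[ℝ] HH :=
  LinearMap.toContinuousLinearMap
    { toFun := star
      map_add' := star_add
      map_smul' := fun r y => Quaternion.star_smul r y }

/-- coefficients of the direction `e` in the frame -/
noncomputable def aa (e : HH) (i : Fin 3) (y : HH) : ℝ :=
  (‖y‖ ^ 2)⁻¹ * Pool.Agent.Helper64.RF.im (star y * e) i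

theorem aa_smooth (e : HH) (i : Fin 3) : ContDiffOn ℝ ∞ (aa e i) {0}ᶜ := by
  intro y hy
  have h0 : y ≠ 0 := hy
  have h1 : ContDiffAt ℝ ∞ (fun y : HH => (‖y‖ ^ 2)⁻¹) y := by
    apply ContDiffAt.inv
    · exact (contDiff_norm_sq ℝ).contDiffAt
    · have := norm_pos_iff.mpr h0
      positivity
  have h2 : ContDiff ℝ ∞ (fun y : HH => Pool.Agent.Helper64.RF.im (star y * e) i) := by
    have h3 : (fun y : HH => Pool.Agent.Helper64.RF.im (star y * e) i) =
        fun y : HH => (ContinuousLinearMap.proj (R := ℝ) (φ := fun _ : Fin 3 => ℝ) i)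
          (Pool.Agent.Helper64.RF.imL (stL y * e)) := by
      funext y
      rfl
    rw [h3]
    exact (ContinuousLinearMap.contDiff _).comp ((ContinuousLinearMap.contDiff _).comp
      ((ContinuousLinearMap.contDiff _).mul contDiff_const))
  exact (h1.mul h2.contDiffAt).contDiffWithinAt

theorem fderiv_frame {v : HH → ℝ} (hv : Sm v) {y : HH} (hy : y ≠ 0) (e : HH) :
    fderiv ℝ v y e = ∑ i, aa e i y * E i v y := by
  rw [(Pool.Agent.Helper40.RF.ss_of_sm hv).fderiv_apply hy, Pool.Agent.Helper40.RF.Ed_eq]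
  refine Finset.sum_congr rfl fun i _ => ?_
  congr 1
  have h1 : y⁻¹ * e = (‖y‖ ^ 2)⁻¹ • (star y * e) := by
    rw [Quaternion.inv_def, Quaternion.normSq_eq_norm_mul_self, ← pow_two, smul_mul_assoc]
  rw [h1, Pool.Agent.Helper64.RF.im_smul]
  rfl

/-- operators of order `k` with smooth coefficients supported in the annulus -/
def Good (k : ℕ) (T : XS → HH → ℝ) : Prop :=
  ∃ (ι : Type) (_ : Fintype ι) (c : ι → HH → ℝ) (w : ι → List (Fin 3)),
    (∀ j, ContDiff ℝ ∞ (c j)) ∧ (∀ j, tsupport (c j) ⊆ KK) ∧ (∀ j, (w j).length ≤ k) ∧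
    ∀ u y, T u y = ∑ j, c j y * (Wd (w j) u).1 y

theorem Good.smooth {k : ℕ} {T : XS → HH → ℝ} (hT : Good k T) (u : XS) :
    ContDiff ℝ ∞ (T u) := by
  obtain ⟨ι, _, c, w, hc, hs, -, hT⟩ := hT
  have h : T u = fun y => ∑ j, c j y * (Wd (w j) u).1 y := funext (hT u)
  rw [h]
  exact ContDiff.sum fun j _ => smooth_mul (hc j) (hs j) (Wd (w j) u).2.cd

theorem Good.zero {k : ℕ} {T : XS → HH → ℝ} (hT : Good k T) (u : XS) {y : HH} (hy : y ∉ KK) :
    T u y = 0 := by
  obtain ⟨ι, _, c, w, -, hs, -, hT⟩ := hT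
  rw [hT]
  refine Finset.sum_eq_zero fun j _ => ?_
  have : c j y = 0 := image_eq_zero_of_notMem_tsupport fun h => hy (hs j h)
  rw [this, zero_mul]

theorem Good.der {k : ℕ} {T : XS → HH → ℝ} (hT : Good k T) (e : HH) :
    Good (k + 1) (fun u y => fderiv ℝ (T u) y e) := by
  obtain ⟨ι, _, c, w, hc, hs, hw, hT⟩ := hT
  refine ⟨ι ⊕ (ι × Fin 3), inferInstance,
    Sum.elim (fun j y => fderiv ℝ (c j) y e) (fun p y => c p.1 y * aa e p.2 y),
    Sum.elim w (fun p => p.2 :: w p.1), ?_, ?_, ?_, ?_⟩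
  · rintro (j | p)
    · exact ((hc j).fderiv_right (m := ∞) (by simp)).clm_apply contDiff_const
    · exact smooth_mul (hc p.1) (hs p.1) (aa_smooth e p.2)
  · rintro (j | p)
    · exact (tsupport_fderiv_apply_subset ℝ e).trans (hs j)
    · exact (tsupport_mul_subset_left).trans (hs p.1)
  · rintro (j | p)
    · exact (hw j).trans (Nat.le_succ k)
    · simp only [Sum.elim_inr, List.length_cons]
      exact Nat.succ_le_succ (hw p.1)
  · intro u y
    have h : T u = fun y => ∑ j, c j y * (Wd (w j) u).1 y := funext (hT u)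
    have hd : ∀ j, DifferentiableAt ℝ (fun y => c j y * (Wd (w j) u).1 y) y := fun j =>
      ((smooth_mul (hc j) (hs j) (Wd (w j) u).2.cd).differentiable (by simp)) y
    have h2 : fderiv ℝ (T u) y = ∑ j, fderiv ℝ (fun y => c j y * (Wd (w j) u).1 y) y := by
      rw [h]
      exact fderiv_fun_sum fun j _ => hd j
    change fderiv ℝ (T u) y e = _
    rw [h2, ContinuousLinearMap.sum_apply, Fintype.sum_sum_type, Fintype.sum_prod_type,
      ← Finset.sum_add_distrib]
    refine Finset.sum_congr rfl fun j _ => ?_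
    simp only [Sum.elim_inl, Sum.elim_inr]
    by_cases hy : y = 0
    · have hy' : y ∉ tsupport (c j) := fun h => KK_ne (hs j h) hy
      have e1 : c j y = 0 := image_eq_zero_of_notMem_tsupport hy'
      have e2 : fderiv ℝ (c j) y = 0 := fderiv_of_notMem_tsupport ℝ hy'
      have e3 : fderiv ℝ (fun y => c j y * (Wd (w j) u).1 y) y = 0 := by
        apply fderiv_of_notMem_tsupport
        exact fun h => hy' (tsupport_mul_subset_left h)
      rw [e1, e2, e3]
      simp
    · have hv : DifferentiableAt ℝ (Wd (w j) u).1 y :=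
        ((Wd (w j) u).2.cd.contDiffAt (isOpen_compl_singleton.mem_nhds hy)).differentiableAt
          (by simp)
      have hcd : DifferentiableAt ℝ (c j) y := ((hc j).differentiable (by simp)) y
      rw [fderiv_fun_mul hcd hv, ContinuousLinearMap.add_apply, ContinuousLinearMap.smul_apply,
        ContinuousLinearMap.smul_apply, fderiv_frame (Wd (w j) u).2 hy e, smul_eq_mul, smul_eq_mul,
        Finset.mul_sum, add_comm]
      congr 1
      · ring
      · refine Finset.sum_congr rfl fun i _ => ?_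
        rw [Wd_cons, Ed_val]
        ring

/-- fundamental theorem of calculus in one direction -/
theorem ftc {k : ℕ} {T : XS → HH → ℝ} (hT : Good k T) (u : XS) (x e : HH) (he : e ≠ 0) :
    ‖T u x‖ₑ ≤ ∫⁻ s : ℝ, ‖fderiv ℝ (T u) (x + s • e) e‖ₑ := by
  have hsm := hT.smooth u
  set g : ℝ → ℝ := fun s => T u (x + s • e) with hg
  have h1 : ContDiff ℝ 1 g := by
    have : ContDiff ℝ 1 (T u) := hsm.of_le (by simp)
    exact this.comp (contDiff_const.add (contDiff_id.smul contDiff_const))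
  have hen : 0 < ‖e‖ := norm_pos_iff.mpr he
  have h2 : HasCompactSupport g := by
    refine HasCompactSupport.intro (K := Icc (-((1 + ‖x‖) / ‖e‖)) ((1 + ‖x‖) / ‖e‖)) isCompact_Icc
      fun s hs => ?_
    apply hT.zero u
    intro hK
    have h3 := KK_ball hK
    rw [mem_ball_zero_iff] at h3
    apply hs
    rw [mem_Icc, ← abs_le, le_div_iff₀ hen]
    have h4 : ‖s • e‖ ≤ ‖x + s • e‖ + ‖x‖ := by
      have := norm_sub_le (x + s • e) x
      simpa using this
    rw [norm_smul, Real.norm_eq_abs] at h4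
    linarith
  have h3 : ∀ s, deriv g s = fderiv ℝ (T u) (x + s • e) e := by
    intro s
    have hd : HasFDerivAt (T u) (fderiv ℝ (T u) (x + s • e)) (x + s • e) :=
      (hsm.differentiable (by simp) _).hasFDerivAt
    have hl : HasDerivAt (fun s : ℝ => x + s • e) e s := by
      simpa using ((hasDerivAt_id s).smul_const e).const_add x
    exact (hd.comp_hasDerivAt s hl).deriv
  have h4 := HasCompactSupport.enorm_le_lintegral_Ici_deriv h1 h2 0
  have h5 : g 0 = T u x := by simp [hg]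
  rw [h5] at h4
  refine h4.trans ((setLIntegral_le_lintegral _ _).trans (le_of_eq ?_))
  simp only [h3]

/-- coordinates -/
noncomputable def ps : (ℝ × ℝ × ℝ × ℝ) ≃L[ℝ] HH :=
  LinearEquiv.toContinuousLinearEquiv
    { toFun := fun p => ⟨p.1, p.2.1, p.2.2.1, p.2.2.2⟩
      map_add' := fun _ _ => rfl
      map_smul' := fun _ _ => rfl
      invFun := fun q => (q.re, q.imI, q.imJ, q.imK)
      left_inv := fun _ => rfl
      right_inv := fun _ => rfl }

theorem ps_apply (a b c d : ℝ) : ps (a, b, c, d) = a • (1 : HH) + b • qe 0 + c • qe 1 + d • qe 2 := by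
  have h0 : qe 0 = ps (0, 1, 0, 0) := rfl
  have h1 : qe 1 = ps (0, 0, 1, 0) := rfl
  have h2 : qe 2 = ps (0, 0, 0, 1) := rfl
  have h3 : (1 : HH) = ps (1, 0, 0, 0) := rfl
  rw [h0, h1, h2, h3, ← map_smul, ← map_smul, ← map_smul, ← map_smul, ← map_add, ← map_add,
    ← map_add]
  simp

theorem qe_ne (i : Fin 3) : qe i ≠ 0 := by
  intro h
  fin_cases i
  · exact one_ne_zero (α := ℝ) (congrArg QuaternionAlgebra.imI h)
  · exact one_ne_zero (α := ℝ) (congrArg QuaternionAlgebra.imJ h)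
  · exact one_ne_zero (α := ℝ) (congrArg QuaternionAlgebra.imK h)

theorem iter {T : XS → HH → ℝ} (hT : Good 0 T) (u : XS) (x : HH) :
    ‖T u x‖ₑ ≤ ∫⁻ p : ℝ × ℝ × ℝ × ℝ, ‖fderiv ℝ (fun y => fderiv ℝ (fun y => fderiv ℝ
      (fun y => fderiv ℝ (T u) y 1) y (qe 0)) y (qe 1)) (x + ps p) (qe 2)‖ₑ := by
  have g1 := hT.der 1
  have g2 := g1.der (qe 0)
  have g3 := g2.der (qe 1)
  have g4 := g3.der (qe 2)
  set F : HH → ℝ := fun y => fderiv ℝ (fun y => fderiv ℝ (fun y => fderiv ℝ
      (fun y => fderiv ℝ (T u) y 1) y (qe 0)) y (qe 1)) y (qe 2) with hF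
  have hFc : Continuous F := (g4.smooth u).continuous
  have hmeas : Measurable (fun p : ℝ × ℝ × ℝ × ℝ => ‖F (x + ps p)‖ₑ) := by
    apply Continuous.measurable
    exact (hFc.comp (continuous_const.add ps.continuous)).enorm
  have e1 : ∫⁻ p : ℝ × ℝ × ℝ × ℝ, ‖F (x + ps p)‖ₑ =
      ∫⁻ a : ℝ, ∫⁻ b : ℝ, ∫⁻ c : ℝ, ∫⁻ d : ℝ, ‖F (x + ps (a, b, c, d))‖ₑ := by
    rw [Measure.volume_eq_prod, lintegral_prod _ hmeas.aemeasurable]
    refine lintegral_congr fun a => ?_
    have h1 : Measurable (fun p : ℝ × ℝ × ℝ => ‖F (x + ps (a, p))‖ₑ) :=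
      hmeas.comp measurable_prodMk_left
    rw [Measure.volume_eq_prod, lintegral_prod _ h1.aemeasurable]
    refine lintegral_congr fun b => ?_
    have h2 : Measurable (fun p : ℝ × ℝ => ‖F (x + ps (a, b, p))‖ₑ) :=
      h1.comp measurable_prodMk_left
    rw [Measure.volume_eq_prod, lintegral_prod _ h2.aemeasurable]
  rw [e1]
  refine (ftc hT u x 1 one_ne_zero).trans (lintegral_mono fun a => ?_)
  refine (ftc g1 u (x + a • 1) (qe 0) (qe_ne 0)).trans (lintegral_mono fun b => ?_)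
  refine (ftc g2 u (x + a • 1 + b • qe 0) (qe 1) (qe_ne 1)).trans (lintegral_mono fun c => ?_)
  refine (ftc g3 u (x + a • 1 + b • qe 0 + c • qe 1) (qe 2) (qe_ne 2)).trans
    (lintegral_mono fun d => ?_)
  have e2 : x + ps (a, b, c, d) = x + a • 1 + b • qe 0 + c • qe 1 + d • qe 2 := by
    rw [ps_apply]
    abel
  rw [e2]

/-- change of variables -/
theorem chg : ∃ C : ℝ≥0, ∀ (F : HH → ℝ) (x : HH), Continuous F →
    ∫⁻ p : ℝ × ℝ × ℝ × ℝ, ‖F (x + ps p)‖ₑ = C * ∫⁻ y, ‖F y‖ₑ := by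
  have := hvol
  have hp2 : (volume : Measure (ℝ × ℝ)).IsAddHaarMeasure :=
    Measure.prod.instIsAddHaarMeasure _ _
  have hp3 : (volume : Measure (ℝ × ℝ × ℝ)).IsAddHaarMeasure :=
    Measure.prod.instIsAddHaarMeasure _ _
  have hp4 : (volume : Measure (ℝ × ℝ × ℝ × ℝ)).IsAddHaarMeasure :=
    Measure.prod.instIsAddHaarMeasure _ _
  have hH : (Measure.map ps (volume : Measure (ℝ × ℝ × ℝ × ℝ))).IsAddHaarMeasure :=
    ps.isAddHaarMeasure_map _
  have h1 := Measure.isAddLeftInvariant_eq_smul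
    (Measure.map ps (volume : Measure (ℝ × ℝ × ℝ × ℝ))) (volume : Measure HH)
  obtain ⟨C, hC⟩ : ∃ C : ℝ≥0, Measure.map ps (volume : Measure (ℝ × ℝ × ℝ × ℝ)) =
      C • (volume : Measure HH) := ⟨_, h1⟩
  refine ⟨C, fun F x hF => ?_⟩
  have hm : Measurable (fun y : HH => ‖F (x + y)‖ₑ) :=
    (hF.comp (continuous_const.add continuous_id)).enorm.measurable
  have h2 : ∫⁻ p : ℝ × ℝ × ℝ × ℝ, ‖F (x + ps p)‖ₑ =
      ∫⁻ y, ‖F (x + y)‖ₑ ∂(Measure.map ps (volume : Measure (ℝ × ℝ × ℝ × ℝ))) := by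
    rw [lintegral_map hm ps.continuous.measurable]
  rw [h2, hC, lintegral_smul_measure, lintegral_add_left_eq_self (fun y => ‖F y‖ₑ) x]
  rfl

/-- Cauchy-Schwarz on the ball -/
theorem csb (v : XS) : (∫ y in Metric.ball (0 : HH) 1, |v.1 y|) ^ 2 ≤
    (volume (Metric.ball (0 : HH) 1)).toReal * ∫ y in Metric.ball (0 : HH) 1, v.1 y * v.1 y := by
  set a := ∫ y in Metric.ball (0 : HH) 1, |v.1 y| with ha
  set b := ∫ y in Metric.ball (0 : HH) 1, v.1 y * v.1 y with hb
  set V := (volume (Metric.ball (0 : HH) 1)).toReal with hV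
  have := hvol
  have hfin : volume (Metric.ball (0 : HH) 1) ≠ (⊤ : ℝ≥0∞) := measure_ball_lt_top.ne
  have i1 : IntegrableOn (fun y => |v.1 y|) (Metric.ball (0 : HH) 1) := (integrable_val v).norm
  have i2 : IntegrableOn (fun y => v.1 y * v.1 y) (Metric.ball (0 : HH) 1) := integrable_val (v * v)
  have i3 : ∀ t : ℝ, IntegrableOn (fun _ : HH => t) (Metric.ball (0 : HH) 1) := fun t =>
    integrableOn_const hfin
  have h : ∀ t : ℝ, 0 ≤ V * (t * t) + (-2 * a) * t + b := by
    intro t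
    have h1 : 0 ≤ ∫ y in Metric.ball (0 : HH) 1, (|v.1 y| - t) ^ 2 :=
      integral_nonneg fun y => sq_nonneg _
    have h2 : ∫ y in Metric.ball (0 : HH) 1, (|v.1 y| - t) ^ 2 =
        ∫ y in Metric.ball (0 : HH) 1, (v.1 y * v.1 y + (-2 * t) * |v.1 y| + t * t) := by
      refine integral_congr_ae (ae_of_all _ fun y => ?_)
      have : |v.1 y| ^ 2 = v.1 y ^ 2 := sq_abs _
      simp only
      nlinarith
    have i12 : IntegrableOn (fun y => v.1 y * v.1 y + (-2 * t) * |v.1 y|)
        (Metric.ball (0 : HH) 1) := i2.add (i1.const_mul _)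
    rw [h2, integral_add i12 (i3 _), integral_add i2 (i1.const_mul _),
      integral_const_mul, setIntegral_const, smul_eq_mul] at h1
    have h3 : (volume.real (Metric.ball (0 : HH) 1)) = V := rfl
    rw [h3] at h1
    nlinarith
  have h2 := discrim_le_zero h
  rw [discrim] at h2
  nlinarith

/-- the cut off function -/
theorem exists_cut : ∃ c : HH → ℝ, ContDiff ℝ ∞ c ∧ tsupport c ⊆ KK ∧
    ∀ x : HH, ‖x‖ = 1 / 2 → c x = 1 := by
  let φ : ContDiffBump (1 / 4 : ℝ) := ⟨1 / 16, 1 / 8, by norm_num, by norm_num⟩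
  refine ⟨fun y => φ (‖y‖ ^ 2), φ.contDiff.comp (contDiff_norm_sq ℝ), ?_, ?_⟩
  · apply closure_minimal
    · intro y hy
      have h1 : ‖y‖ ^ 2 ∈ Function.support φ := hy
      rw [φ.support_eq, Metric.mem_ball, Real.dist_eq, abs_lt] at h1
      have h2 : φ.rOut = 1 / 8 := rfl
      rw [h2] at h1
      have h3 := norm_nonneg y
      constructor
      · rw [mem_closedBall_zero_iff]
        nlinarith
      · rw [mem_ball_zero_iff]
        intro h4
        nlinarith
    · exact (isCompact_KK).isClosed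
  · intro x hx
    simp only [hx]
    apply φ.one_of_mem_closedBall
    rw [Metric.mem_closedBall, Real.dist_eq]
    have h2 : φ.rIn = 1 / 16 := rfl
    rw [h2]
    norm_num

theorem l1_bound {T : XS → HH → ℝ} (hT : Good 4 T) : ∃ M : ℝ, 0 ≤ M ∧ ∀ u : XS,
    (∫ y, ‖T u y‖) ^ 2 ≤ M * sn 4 u := by
  have hT' := hT
  obtain ⟨ι, _, c, w, hc, hs, hw, hTe⟩ := hT'
  -- a bound of the coefficients
  have hb : ∀ j, ∃ B, ∀ y, ‖c j y‖ ≤ B := by
    intro j
    have hcs : HasCompactSupport (c j) := isCompact_KK.of_isClosed_subset (isClosed_tsupport _) (hs j)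
    exact hcs.exists_bound_of_continuous (hc j).continuous
  choose B hB using hb
  set V := (volume (Metric.ball (0 : HH) 1)).toReal with hV
  have hV0 : 0 ≤ V := ENNReal.toReal_nonneg
  refine ⟨(∑ j, |B j|) ^ 2 * (V / 4), by positivity, fun u => ?_⟩
  have hsn := sn_nonneg 4 u
  have hz : ∀ y, y ∉ Metric.ball (0 : HH) 1 → ‖T u y‖ = 0 := by
    intro y hy
    rw [hT.zero u fun h => hy (KK_ball h), norm_zero]
  have h1 : ∫ y, ‖T u y‖ = ∫ y in Metric.ball (0 : HH) 1, ‖T u y‖ :=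
    (setIntegral_eq_integral_of_forall_compl_eq_zero hz).symm
  have hcsT : HasCompactSupport (T u) := HasCompactSupport.intro isCompact_KK fun y hy =>
    hT.zero u hy
  have := hvol
  have hint : Integrable (T u) := (hT.smooth u).continuous.integrable_of_hasCompactSupport hcsT
  have hI : ∀ j, IntegrableOn (fun y => |B j| * |(Wd (w j) u).1 y|) (Metric.ball (0 : HH) 1) :=
    fun j => ((integrable_val (Wd (w j) u)).norm.const_mul _)
  have h2 : ∫ y in Metric.ball (0 : HH) 1, ‖T u y‖ ≤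
      ∑ j, |B j| * ∫ y in Metric.ball (0 : HH) 1, |(Wd (w j) u).1 y| := by
    calc ∫ y in Metric.ball (0 : HH) 1, ‖T u y‖
        ≤ ∫ y in Metric.ball (0 : HH) 1, ∑ j, |B j| * |(Wd (w j) u).1 y| := by
          apply setIntegral_mono hint.norm.integrableOn (integrable_finset_sum _ fun j _ => hI j)
          intro y
          simp only
          rw [hTe]
          refine (norm_sum_le _ _).trans (Finset.sum_le_sum fun j _ => ?_)
          rw [norm_mul]
          exact mul_le_mul_of_nonneg_right ((hB j y).trans (le_abs_self _)) (norm_nonneg _)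
      _ = _ := by
          rw [integral_finset_sum _ fun j _ => hI j]
          simp only [integral_const_mul]
  have h3 : ∀ j, ∫ y in Metric.ball (0 : HH) 1, |(Wd (w j) u).1 y| ≤
      Real.sqrt (V / 4 * sn 4 u) := by
    intro j
    apply Real.le_sqrt_of_sq_le
    refine (csb (Wd (w j) u)).trans ?_
    have h4 := ip_Wd_le (hw j) u
    rw [ip_apply, integ] at h4
    have h5 : ∫ y in Metric.ball (0 : HH) 1, (Wd (w j) u).1 y * (Wd (w j) u).1 y ≤
        sn 4 u / 4 := by linarith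
    calc _ ≤ V * (sn 4 u / 4) := mul_le_mul_of_nonneg_left h5 hV0
      _ = _ := by ring
  have h6 : ∫ y, ‖T u y‖ ≤ (∑ j, |B j|) * Real.sqrt (V / 4 * sn 4 u) := by
    rw [h1, Finset.sum_mul]
    exact h2.trans (Finset.sum_le_sum fun j _ => mul_le_mul_of_nonneg_left (h3 j) (abs_nonneg _))
  have h7 : 0 ≤ ∫ y, ‖T u y‖ := integral_nonneg fun y => norm_nonneg _
  calc (∫ y, ‖T u y‖) ^ 2 ≤ ((∑ j, |B j|) * Real.sqrt (V / 4 * sn 4 u)) ^ 2 :=
        pow_le_pow_left₀ h7 h6 2
    _ = _ := by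
        rw [mul_pow, Real.sq_sqrt (mul_nonneg (div_nonneg hV0 (by norm_num)) hsn)]
        ring

theorem sob : G_SOB := by
  obtain ⟨c, hc, hs, h1⟩ := exists_cut
  have hT : Good 0 (fun u y => c y * u.1 y) :=
    ⟨Unit, inferInstance, fun _ => c, fun _ => [], fun _ => hc, fun _ => hs, fun _ => le_rfl,
      fun u y => by simp⟩
  have g4 := (((hT.der 1).der (qe 0)).der (qe 1)).der (qe 2)
  obtain ⟨M, hM0, hM⟩ := l1_bound g4
  obtain ⟨K, hK⟩ := chg
  refine ⟨(K : ℝ) ^ 2 * M, fun u x hx => ?_⟩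
  have hn : 0 < ‖x‖ := norm_pos_iff.mpr hx
  set r : ℝ := (2 * ‖x‖)⁻¹ with hr
  have hr0 : 0 < r := by positivity
  have hnx : ‖r • x‖ = 1 / 2 := by
    rw [norm_smul, Real.norm_eq_abs, abs_of_pos hr0, hr]
    field_simp
  have e1 : u.1 x = u.1 (r • x) := (u.2.hom r x hr0).symm
  have h2 := iter hT u (r • x)
  have hcont : Continuous (fun y => fderiv ℝ (fun y => fderiv ℝ (fun y => fderiv ℝ
      (fun y => fderiv ℝ (fun y => c y * u.1 y) y 1) y (qe 0)) y (qe 1)) y (qe 2)) :=
    (g4.smooth u).continuous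
  rw [hK _ (r • x) hcont] at h2
  have := hvol
  have hcs : HasCompactSupport (fun y => fderiv ℝ (fun y => fderiv ℝ (fun y => fderiv ℝ
      (fun y => fderiv ℝ (fun y => c y * u.1 y) y 1) y (qe 0)) y (qe 1)) y (qe 2)) :=
    HasCompactSupport.intro isCompact_KK fun y hy => g4.zero u hy
  have hint : Integrable (fun y => fderiv ℝ (fun y => fderiv ℝ (fun y => fderiv ℝ
      (fun y => fderiv ℝ (fun y => c y * u.1 y) y 1) y (qe 0)) y (qe 1)) y (qe 2)) :=
    hcont.integrable_of_hasCompactSupport hcs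
  rw [← ofReal_integral_norm_eq_lintegral_enorm hint] at h2
  set J := ∫ y, ‖fderiv ℝ (fun y => fderiv ℝ (fun y => fderiv ℝ
      (fun y => fderiv ℝ (fun y => c y * u.1 y) y 1) y (qe 0)) y (qe 1)) y (qe 2)‖ with hJ
  have hJ0 : 0 ≤ J := integral_nonneg fun y => norm_nonneg _
  have h3 : |u.1 x| ≤ K * J := by
    have h4 : ‖c (r • x) * u.1 (r • x)‖ₑ ≤ ENNReal.ofReal (K * J) := by
      refine h2.trans (le_of_eq ?_)
      rw [ENNReal.ofReal_mul (by positivity), ENNReal.ofReal_coe_nnreal]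
    rw [h1 _ hnx, one_mul, ← e1, ← ofReal_norm_eq_enorm,
      ENNReal.ofReal_le_ofReal_iff (by positivity)] at h4
    exact h4
  have h5 := hM u
  calc u.1 x ^ 2 = |u.1 x| ^ 2 := (sq_abs _).symm
    _ ≤ (K * J) ^ 2 := by gcongr
    _ = (K : ℝ) ^ 2 * J ^ 2 := by ring
    _ ≤ (K : ℝ) ^ 2 * (M * sn 4 u) := by
        apply mul_le_mul_of_nonneg_left _ (by positivity)
        exact h5
    _ = _ := by ring

end Pool.Agent.Helper40.RS
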